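import Pool.Agent.K3h34.BF.Stm

/-! BF project (helper34, MP_a2a574_ag), brick DIFF: holomorphic dependence on `s` of
`∫ exp(s L) G`. -/

set_option autoImplicit false

namespace Pool.Agent.K3h7.BF

open MeasureTheory Set Filter Topology
open Pool.Agent.K3h34.BF

/-- `exp y ≥ y`-type bound: `|t| exp(κ t) ≤ C exp(κ₁ C) + 1/δ` for `t ≤ C`, `δ ≤ κ ≤ κ₁` -/
theorem abs_mul_exp_le {t C κ δ κ₁ : ℝ} (hC : 0 ≤ C) (ht : t ≤ C) (hδ : 0 < δ) (h1 : δ ≤ κ)
    (h2 : κ ≤ κ₁) : |t| * Real.exp (κ * t) ≤ C * Real.exp (κ₁ * C) + 1 / δ := by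
  have hκ : 0 < κ := hδ.trans_le h1
  rcases le_total 0 t with h | h
  · rw [abs_of_nonneg h]
    have e1 : Real.exp (κ * t) ≤ Real.exp (κ₁ * C) := by
      apply Real.exp_le_exp.2
      calc κ * t ≤ κ * C := mul_le_mul_of_nonneg_left ht hκ.le
        _ ≤ κ₁ * C := mul_le_mul_of_nonneg_right h2 hC
    have e2 : t * Real.exp (κ * t) ≤ C * Real.exp (κ₁ * C) :=
      mul_le_mul ht e1 (Real.exp_pos _).le hC
    have e3 : 0 < 1 / δ := by positivity
    linarith
  · rw [abs_of_nonpos h]
    have e1 : Real.exp (κ * t) ≤ Real.exp (δ * t) := by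
      apply Real.exp_le_exp.2
      exact mul_le_mul_of_nonpos_right h1 h
    have e2 : -t * Real.exp (κ * t) ≤ -t * Real.exp (δ * t) :=
      mul_le_mul_of_nonneg_left e1 (by linarith)
    have e3 : -t * Real.exp (δ * t) ≤ 1 / δ := by
      rw [le_div_iff₀ hδ]
      have e4 : -(δ * t) ≤ Real.exp (-(δ * t)) := by
        have := Real.add_one_le_exp (-(δ * t))
        linarith
      have e5 : Real.exp (-(δ * t)) * Real.exp (δ * t) = 1 := by
        rw [← Real.exp_add]; simp
      have e6 : 0 < Real.exp (δ * t) := Real.exp_pos _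
      nlinarith [mul_le_mul_of_nonneg_right e4 e6.le]
    have e4 : 0 ≤ C * Real.exp (κ₁ * C) := mul_nonneg hC (Real.exp_pos _).le
    linarith

/-- the pointwise bound for the norm of `exp(s L) G` -/
theorem norm_le {l g s : ℂ} {σ C δ : ℝ} (him : |l.im| ≤ C)
    (hg : ‖g‖ * Real.exp (σ * l.re) ≤ C) {R : ℝ} (hs : |s.im| ≤ R) (hδ : 0 ≤ C) :
    ‖Complex.exp (s * l) * g‖ ≤ Real.exp ((s.re - σ) * l.re) * (Real.exp (R * C) * C) := by
  have _ := δ
  rw [norm_mul, Complex.norm_exp, Complex.mul_re]
  have e1 : s.re * l.re - s.im * l.im = (s.re - σ) * l.re + (σ * l.re) + (-(s.im * l.im)) := by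
    ring
  rw [e1, Real.exp_add, Real.exp_add]
  have e2 : Real.exp (-(s.im * l.im)) ≤ Real.exp (R * C) := by
    apply Real.exp_le_exp.2
    calc -(s.im * l.im) ≤ |s.im * l.im| := neg_le_abs _
      _ = |s.im| * |l.im| := abs_mul _ _
      _ ≤ R * C := mul_le_mul hs him (abs_nonneg _) ((abs_nonneg _).trans hs)
  have p1 : 0 < Real.exp ((s.re - σ) * l.re) := Real.exp_pos _
  have p3 : 0 < Real.exp (-(s.im * l.im)) := Real.exp_pos _
  calc Real.exp ((s.re - σ) * l.re) * Real.exp (σ * l.re) * Real.exp (-(s.im * l.im)) * ‖g‖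
      = Real.exp ((s.re - σ) * l.re) *
        (Real.exp (-(s.im * l.im)) * (‖g‖ * Real.exp (σ * l.re))) := by ring
    _ ≤ Real.exp ((s.re - σ) * l.re) * (Real.exp (R * C) * C) := by
        refine mul_le_mul_of_nonneg_left ?_ p1.le
        exact mul_le_mul e2 hg (by positivity) (Real.exp_pos _).le

theorem t_Diff : StmDiff := by
  intro n U L G σ C₀ hU hUb hL hG hre him hGb
  rcases U.eq_empty_or_nonempty with rfl | ⟨x₀, hx₀⟩
  · constructor
    · intro s _
      exact integrableOn_empty
    · simp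
  have hC : 0 ≤ C₀ := (abs_nonneg _).trans (him x₀ hx₀)
  have hfin : volume U < ⊤ := hUb.measure_lt_top
  have hmeas : MeasurableSet U := hU.measurableSet
  have hconst : ∀ c : ℝ, Integrable (fun _ : Fin n → ℝ => c) (volume.restrict U) := by
    intro c
    have : IsFiniteMeasure (volume.restrict U) := ⟨by
      rw [Measure.restrict_apply_univ]; exact hfin⟩
    exact integrable_const c
  have hcont : ∀ s : ℂ, ContinuousOn (fun x => Complex.exp (s * L x) * G x) U := by
    intro s
    exact ((Complex.continuous_exp.comp_continuousOn (continuousOn_const.mul hL))).mul hG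
  have hint : ∀ s : ℂ, σ < s.re → IntegrableOn (fun x => Complex.exp (s * L x) * G x) U := by
    intro s hs
    refine Integrable.mono' (hconst (Real.exp ((s.re - σ) * C₀) * (Real.exp (|s.im| * C₀) * C₀)))
      ((hcont s).aestronglyMeasurable hmeas) ?_
    refine (ae_restrict_mem hmeas).mono fun x hx => ?_
    refine (norm_le (δ := 0) (him x hx) (hGb x hx) le_rfl hC).trans ?_
    refine mul_le_mul_of_nonneg_right ?_ (by positivity)
    exact Real.exp_le_exp.2 (mul_le_mul_of_nonneg_left (hre x hx) (by linarith))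
  refine ⟨hint, fun s₀ hs₀ => ?_⟩
  have hs₀' : σ < s₀.re := hs₀
  obtain ⟨δ, hδ, hδ2⟩ : ∃ δ : ℝ, 0 < δ ∧ s₀.re - σ = 2 * δ :=
    ⟨(s₀.re - σ) / 2, by linarith, by ring⟩
  set B : ℝ := (C₀ * Real.exp (3 * δ * C₀) + 1 / δ + C₀ * Real.exp (3 * δ * C₀)) *
    (Real.exp ((|s₀.im| + δ) * C₀) * C₀) with hB
  have key : HasDerivAt (fun s : ℂ => ∫ x in U, Complex.exp (s * L x) * G x)
      (∫ x in U, L x * (Complex.exp (s₀ * L x) * G x)) s₀ := by
    refine (hasDerivAt_integral_of_dominated_loc_of_deriv_le (μ := volume.restrict U)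
      (F := fun s x => Complex.exp (s * L x) * G x)
      (F' := fun s x => L x * (Complex.exp (s * L x) * G x))
      (bound := fun _ => B) (Metric.ball_mem_nhds s₀ hδ) ?_ (hint s₀ hs₀') ?_ ?_
      (hconst B) ?_).2
    · exact Eventually.of_forall fun s => (hcont s).aestronglyMeasurable hmeas
    · exact (hL.mul (hcont s₀)).aestronglyMeasurable hmeas
    · refine (ae_restrict_mem hmeas).mono fun x hx s hs => ?_
      rw [Metric.mem_ball, dist_eq_norm] at hs
      have h1 : |s.re - s₀.re| < δ := by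
        have := Complex.abs_re_le_norm (s - s₀)
        rw [Complex.sub_re] at this
        exact this.trans_lt hs
      have h2 : |s.im - s₀.im| < δ := by
        have := Complex.abs_im_le_norm (s - s₀)
        rw [Complex.sub_im] at this
        exact this.trans_lt hs
      have h3 : |s.im| ≤ |s₀.im| + δ := by
        have : |s.im| ≤ |s.im - s₀.im| + |s₀.im| := by
          have := abs_add_le (s.im - s₀.im) s₀.im
          simpa using this
        linarith
      obtain ⟨h4, h5⟩ := abs_lt.1 h1
      have h6 : δ ≤ s.re - σ := by linarith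
      have h7 : s.re - σ ≤ 3 * δ := by linarith
      have h8 := norm_le (δ := 0) (him x hx) (hGb x hx) h3 hC
      have h9 : ‖L x‖ ≤ |(L x).re| + C₀ :=
        (Complex.norm_le_abs_re_add_abs_im (L x)).trans (by linarith [him x hx])
      rw [norm_mul]
      have h10 : 0 ≤ Real.exp ((|s₀.im| + δ) * C₀) * C₀ := by positivity
      calc ‖L x‖ * ‖Complex.exp (s * L x) * G x‖
          ≤ (|(L x).re| + C₀) * (Real.exp ((s.re - σ) * (L x).re) *
            (Real.exp ((|s₀.im| + δ) * C₀) * C₀)) :=
            mul_le_mul h9 h8 (norm_nonneg _) (by positivity)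
        _ = (|(L x).re| * Real.exp ((s.re - σ) * (L x).re) +
            C₀ * Real.exp ((s.re - σ) * (L x).re)) *
            (Real.exp ((|s₀.im| + δ) * C₀) * C₀) := by ring
        _ ≤ B := by
            rw [hB]
            refine mul_le_mul_of_nonneg_right (add_le_add ?_ ?_) h10
            · exact abs_mul_exp_le hC (hre x hx) hδ h6 h7
            · refine mul_le_mul_of_nonneg_left (Real.exp_le_exp.2 ?_) hC
              calc (s.re - σ) * (L x).re ≤ (s.re - σ) * C₀ :=
                    mul_le_mul_of_nonneg_left (hre x hx) (by linarith)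
                _ ≤ 3 * δ * C₀ := mul_le_mul_of_nonneg_right h7 hC
    · refine Eventually.of_forall fun x s _ => ?_
      have h1 : HasDerivAt (fun s : ℂ => Complex.exp (s * L x))
          (Complex.exp (s * L x) * (1 * L x)) s :=
        ((hasDerivAt_id s).mul_const (L x)).cexp
      have h2 := h1.mul_const (G x)
      have e : L x * (Complex.exp (s * L x) * G x) = Complex.exp (s * L x) * (1 * L x) * G x := by
        ring
      show HasDerivAt (fun s : ℂ => Complex.exp (s * L x) * G x)
        (L x * (Complex.exp (s * L x) * G x)) s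
      rw [e]
      exact h2
  exact key.differentiableAt.differentiableWithinAt

end Pool.Agent.K3h7.BF
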